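import Pool.Agent.Helper64.RFn.GoalsL

/-!
Packet FCBn (helper64, project RFn): the curvature bound of the cone from CYRn and CURn.
-/

open MeasureTheory Set Matrix

open scoped RealInnerProductSpace

namespace Pool.Agent.Helper99.RFn.FCB

open Pool.Agent.Helper47.RFn (EE MF pd Hom0 Sm IsMetric cyl Chr Rup Rm ip gvol)
open Pool.Agent.Helper64.RFn

variable {N : ℕ}

/-- operator norm of a matrix with small entries -/
lemma opn (M : Matrix (Fin N) (Fin N) ℝ) (K : ℝ) (hK : 0 ≤ K) (h : ∀ i j, |M i j| ≤ K) :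
    ‖(Matrix.toEuclideanCLM (𝕜 := ℝ) M : V N →L[ℝ] V N)‖ ≤ (N : ℝ) ^ 2 * K := by
  refine ContinuousLinearMap.opNorm_le_bound _ (by positivity) (fun w => ?_)
  have hw : ∀ j, |w j| ≤ ‖w‖ := fun j => by
    simpa using PiLp.norm_apply_le w j
  have hc : ∀ i, |(Matrix.toEuclideanCLM (𝕜 := ℝ) M w : V N) i| ≤ (N : ℝ) * K * ‖w‖ := by
    intro i
    have e : (Matrix.toEuclideanCLM (𝕜 := ℝ) M w : V N) i = ∑ j, M i j * w j := by
      simp [Matrix.mulVec, dotProduct]
    rw [e]
    refine (Finset.abs_sum_le_sum_abs _ _).trans ?_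
    calc ∑ j, |M i j * w j| ≤ ∑ _j : Fin N, K * ‖w‖ := by
          refine Finset.sum_le_sum (fun j _ => ?_)
          rw [abs_mul]
          exact mul_le_mul (h i j) (hw j) (abs_nonneg _) hK
      _ = (N : ℝ) * K * ‖w‖ := by simp; ring
  have hsq : ‖(Matrix.toEuclideanCLM (𝕜 := ℝ) M w : V N)‖ ^ 2 ≤ ((N : ℝ) ^ 2 * K * ‖w‖) ^ 2 := by
    rw [EuclideanSpace.norm_sq_eq]
    calc ∑ i, ‖(Matrix.toEuclideanCLM (𝕜 := ℝ) M w : V N) i‖ ^ 2
        ≤ ∑ _i : Fin N, ((N : ℝ) * K * ‖w‖) ^ 2 := by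
          refine Finset.sum_le_sum (fun i _ => ?_)
          rw [Real.norm_eq_abs]
          exact pow_le_pow_left₀ (abs_nonneg _) (hc i) 2
      _ = (N : ℝ) * ((N : ℝ) * K * ‖w‖) ^ 2 := by simp
      _ ≤ ((N : ℝ) ^ 2 * K * ‖w‖) ^ 2 := by
          rcases Nat.eq_zero_or_pos N with h0 | h0
          · subst h0; simp
          · have h1 : (1 : ℝ) ≤ (N : ℝ) := by exact_mod_cast h0
            have h2 : (N : ℝ) ≤ (N : ℝ) ^ 2 := by nlinarith
            have h3 : 0 ≤ ((N : ℝ) * K * ‖w‖) ^ 2 := by positivity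
            calc (N : ℝ) * ((N : ℝ) * K * ‖w‖) ^ 2 ≤ (N : ℝ) ^ 2 * ((N : ℝ) * K * ‖w‖) ^ 2 :=
                  mul_le_mul_of_nonneg_right h2 h3
              _ = ((N : ℝ) ^ 2 * K * ‖w‖) ^ 2 := by ring
  exact abs_le_of_sq_le_sq' hsq (by positivity) |>.2

/-- factorisation, first pattern -/
lemma fac1 (f g : Fin N → Fin N → ℝ) (a b c d : Fin N → ℝ) :
    ∑ i, ∑ j, ∑ k, ∑ l, f j k * g i l * a i * b j * c k * d l =
      (∑ j, ∑ k, f j k * b j * c k) * (∑ i, ∑ l, g i l * a i * d l) := by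
  rw [Finset.mul_sum]
  refine Finset.sum_congr rfl (fun i _ => ?_)
  rw [Finset.sum_mul]
  refine Finset.sum_congr rfl (fun j _ => ?_)
  rw [Finset.sum_mul]
  refine Finset.sum_congr rfl (fun k _ => ?_)
  rw [Finset.mul_sum]
  refine Finset.sum_congr rfl (fun l _ => ?_)
  ring

/-- factorisation, second pattern -/
lemma fac2 (f g : Fin N → Fin N → ℝ) (a b c d : Fin N → ℝ) :
    ∑ i, ∑ j, ∑ k, ∑ l, f i k * g j l * a i * b j * c k * d l =
      (∑ i, ∑ k, f i k * a i * c k) * (∑ j, ∑ l, g j l * b j * d l) := by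
  rw [Finset.sum_mul_sum]
  refine Finset.sum_congr rfl (fun i _ => ?_)
  refine Finset.sum_congr rfl (fun j _ => ?_)
  rw [Finset.sum_mul_sum]
  refine Finset.sum_congr rfl (fun k _ => ?_)
  refine Finset.sum_congr rfl (fun l _ => ?_)
  ring

/-- the four fold contraction with the metric in the last slot -/
lemma fac3 (R : Fin N → Fin N → Fin N → Fin N → ℝ) (g : Fin N → Fin N → ℝ)
    (a b c d t : Fin N → ℝ) (hd : ∀ m, ∑ l, g m l * d l = t m) :
    ∑ i, ∑ j, ∑ k, ∑ l, (∑ m, R i j k m * g m l) * a i * b j * c k * d l =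
      ∑ i, ∑ j, ∑ k, ∑ m, R i j k m * a i * b j * c k * t m := by
  refine Finset.sum_congr rfl (fun i _ => ?_)
  refine Finset.sum_congr rfl (fun j _ => ?_)
  refine Finset.sum_congr rfl (fun k _ => ?_)
  have : ∀ l, (∑ m, R i j k m * g m l) * a i * b j * c k * d l
      = ∑ m, R i j k m * a i * b j * c k * (g m l * d l) := by
    intro l
    simp only [Finset.sum_mul]
    refine Finset.sum_congr rfl (fun m _ => ?_)
    ring
  simp only [this]
  rw [Finset.sum_comm]
  refine Finset.sum_congr rfl (fun m _ => ?_)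
  rw [← Finset.mul_sum, hd]

/-- expansion of the vectors in the frame -/
lemma fac4 (R : Fin N → Fin N → Fin N → Fin N → ℝ) (A : Matrix (Fin N) (Fin N) ℝ)
    (p q u v c t : Fin N → ℝ) (hu : ∀ i, u i = ∑ a, p a * A a i) (hv : ∀ j, v j = ∑ b, q b * A b j) :
    ∑ l, ∑ k, t l * (∑ i, ∑ j, R i j k l * u i * v j) * c k =
      ∑ a, ∑ b, p a * q b * ∑ i, ∑ j, ∑ k, ∑ l, R i j k l * A a i * A b j * c k * t l := by
  have e1 : ∑ l, ∑ k, t l * (∑ i, ∑ j, R i j k l * u i * v j) * c k =
      ∑ i, ∑ j, (∑ k, ∑ l, R i j k l * c k * t l) * u i * v j := by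
    simp only [Finset.sum_mul, Finset.mul_sum]
    rw [Finset.sum_comm]
    -- now k, l, i, j
    have : ∀ k, ∑ l, ∑ i, ∑ j, t l * (R i j k l * u i * v j) * c k =
        ∑ i, ∑ j, ∑ l, t l * (R i j k l * u i * v j) * c k := by
      intro k
      rw [Finset.sum_comm]
      refine Finset.sum_congr rfl (fun i _ => ?_)
      rw [Finset.sum_comm]
    simp only [this]
    rw [Finset.sum_comm]
    refine Finset.sum_congr rfl (fun i _ => ?_)
    rw [Finset.sum_comm]
    refine Finset.sum_congr rfl (fun j _ => ?_)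
    refine Finset.sum_congr rfl (fun k _ => ?_)
    refine Finset.sum_congr rfl (fun l _ => ?_)
    ring
  rw [e1]
  have e2 : ∀ a b, p a * q b * ∑ i, ∑ j, ∑ k, ∑ l, R i j k l * A a i * A b j * c k * t l =
      ∑ i, ∑ j, (∑ k, ∑ l, R i j k l * c k * t l) * (p a * A a i) * (q b * A b j) := by
    intro a b
    simp only [Finset.sum_mul, Finset.mul_sum]
    refine Finset.sum_congr rfl (fun i _ => ?_)
    refine Finset.sum_congr rfl (fun j _ => ?_)
    refine Finset.sum_congr rfl (fun k _ => ?_)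
    refine Finset.sum_congr rfl (fun l _ => ?_)
    ring
  simp only [e2]
  have e3 : ∀ i j, (∑ k, ∑ l, R i j k l * c k * t l) * u i * v j =
      ∑ a, ∑ b, (∑ k, ∑ l, R i j k l * c k * t l) * (p a * A a i) * (q b * A b j) := by
    intro i j
    rw [hu, hv, mul_assoc, Finset.sum_mul_sum, Finset.mul_sum]
    refine Finset.sum_congr rfl (fun a _ => ?_)
    rw [Finset.mul_sum]
    refine Finset.sum_congr rfl (fun b _ => ?_)
    ring
  simp only [e3]
  -- i j a b  ->  a b i j
  have e4 : ∀ i, ∑ j, ∑ a, ∑ b, (∑ k, ∑ l, R i j k l * c k * t l) * (p a * A a i) * (q b * A b j) =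
      ∑ a, ∑ b, ∑ j, (∑ k, ∑ l, R i j k l * c k * t l) * (p a * A a i) * (q b * A b j) := by
    intro i
    rw [Finset.sum_comm]
    refine Finset.sum_congr rfl (fun a _ => ?_)
    rw [Finset.sum_comm]
  simp only [e4]
  rw [Finset.sum_comm]
  refine Finset.sum_congr rfl (fun a _ => ?_)
  rw [Finset.sum_comm]

/-- double sum bound -/
lemma dbl (p q : Fin N → ℝ) (F : Fin N → Fin N → ℝ) (P Q η : ℝ) (hP : 0 ≤ P)
    (hp : ∀ a, |p a| ≤ P) (hq : ∀ a, |q a| ≤ Q) (hF : ∀ a b, |F a b| ≤ η) :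
    |∑ a, ∑ b, p a * q b * F a b| ≤ (N : ℝ) ^ 2 * (P * Q * η) := by
  refine (Finset.abs_sum_le_sum_abs _ _).trans ?_
  calc ∑ a, |∑ b, p a * q b * F a b| ≤ ∑ _a : Fin N, (N : ℝ) * (P * Q * η) := by
        refine Finset.sum_le_sum (fun a _ => ?_)
        refine (Finset.abs_sum_le_sum_abs _ _).trans ?_
        calc ∑ b, |p a * q b * F a b| ≤ ∑ _b : Fin N, P * Q * η := by
              refine Finset.sum_le_sum (fun b _ => ?_)
              rw [abs_mul, abs_mul]
              have hQ : 0 ≤ Q := (abs_nonneg _).trans (hq b)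
              exact mul_le_mul (mul_le_mul (hp a) (hq b) (abs_nonneg _) hP) (hF a b)
                (abs_nonneg _) (mul_nonneg hP hQ)
          _ = (N : ℝ) * (P * Q * η) := by simp
    _ = (N : ℝ) ^ 2 * (P * Q * η) := by simp; ring

variable {n : ℕ}

/-- `θ A = 1` -/
lemma tA {G A θ : MF n} (h : Cofr G A θ) (x : EE n) : θ x * A x = 1 :=
  mul_eq_one_comm.mp (h.inv x)

/-- `∑_l G_ml A_dl = θ_md` -/
lemma GA {G A θ : MF n} (h : Cofr G A θ) (x : EE n) (m d : Fin (n + 1)) :
    ∑ l, G x m l * A x d l = θ x m d := by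
  have e : G x * (A x).transpose = θ x := by
    rw [h.gth x, Matrix.mul_assoc, ← Matrix.transpose_mul, h.inv x, Matrix.transpose_one,
      Matrix.mul_one]
  have := congrFun (congrFun e m) d
  simpa [Matrix.mul_apply] using this

/-- `∑ G_jk A_bj A_ck = δ_bc` -/
lemma AGA {G A θ : MF n} (h : Cofr G A θ) (x : EE n) (b c : Fin (n + 1)) :
    ∑ j, ∑ k, G x j k * A x b j * A x c k = if b = c then 1 else 0 := by
  have e : ∀ j, ∑ k, G x j k * A x b j * A x c k = A x b j * θ x j c := by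
    intro j
    rw [← GA h x j c, Finset.mul_sum]
    refine Finset.sum_congr rfl (fun k _ => ?_)
    ring
  simp only [e]
  have := congrFun (congrFun (h.inv x) b) c
  simpa [Matrix.mul_apply, Matrix.one_apply] using this

/-- `∑ (G_jk - x_j x_k) A_bj A_ck = P_bc` -/
lemma APA {G A θ : MF n} (h : Cofr G A θ) (x : EE n) (b c : Fin (n + 1)) :
    ∑ j, ∑ k, (G x j k - x j * x k) * A x b j * A x c k = Pf A x b c := by
  have e : ∑ j, ∑ k, (G x j k - x j * x k) * A x b j * A x c k =
      (∑ j, ∑ k, G x j k * A x b j * A x c k) - (∑ j, A x b j * x j) * (∑ k, A x c k * x k) := by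
    rw [Finset.sum_mul_sum, ← Finset.sum_sub_distrib]
    refine Finset.sum_congr rfl (fun j _ => ?_)
    rw [← Finset.sum_sub_distrib]
    refine Finset.sum_congr rfl (fun k _ => ?_)
    ring
  rw [e, AGA h]
  rfl

/-- `(G - x xᵀ) G⁻¹`-type slot: `∑_m (δ_im - x_i x_m) G_ml = G_il - x_i x_l` -/
lemma PG {G A θ : MF n} (h : Cofr G A θ) (x : EE n) (i l : Fin (n + 1)) :
    ∑ m, ((if i = m then 1 else 0) - x i * x m) * G x m l = G x i l - x i * x l := by
  have hs : ∀ m, G x m l = G x l m := by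
    intro m
    have := (h.met.pos x).isHermitian
    have h2 := congrFun (congrFun this l) m
    simpa using h2
  have e : ∑ m, ((if i = m then (1:ℝ) else 0) - x i * x m) * G x m l =
      (∑ m, (if i = m then (1:ℝ) else 0) * G x m l) - x i * ∑ m, G x l m * x m := by
    rw [Finset.mul_sum, ← Finset.sum_sub_distrib]
    refine Finset.sum_congr rfl (fun m _ => ?_)
    rw [← hs m]
    ring
  rw [e, h.met.rad x l]
  simp

/-- the curvature of the cylinder metric on the unit sphere, lowered index -/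
lemma rmc (cyr : CYRn) {G A θ : MF n} (h : Cofr G A θ) (x : EE n) (hx : ‖x‖ = 1)
    (i j k l : Fin (n + 1)) :
    Rm (cyl G) i j k l x = (∑ m, Rup G i j k m x * G x m l)
      + (G x j k - x j * x k) * (G x i l - x i * x l)
      - (G x i k - x i * x k) * (G x j l - x j * x l) := by
  have hx0 : x ≠ 0 := by
    intro h0
    rw [h0, norm_zero] at hx
    exact zero_ne_one hx
  have hc : ∀ a b, cyl G x a b = G x a b := by
    intro a b
    simp [cyl, hx]
  have e : ∀ m, Rup (cyl G) i j k m x * cyl G x m l = Rup G i j k m x * G x m l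
      + (G x j k - x j * x k) * (((if i = m then 1 else 0) - x i * x m) * G x m l)
      - (G x i k - x i * x k) * (((if j = m then 1 else 0) - x j * x m) * G x m l) := by
    intro m
    rw [hc, cyr n G h.met i j k m x hx0, hx]
    ring
  unfold Rm
  simp only [e]
  rw [Finset.sum_sub_distrib, Finset.sum_add_distrib, ← Finset.mul_sum, ← Finset.mul_sum,
    PG h, PG h]

/-- the contracted curvature of the cone is small -/
lemma nr (cyr : CYRn) {G A θ : MF n} (h : Cofr G A θ) {η : ℝ} (hn : NearRound G A η)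
    (x : EE n) (hx : ‖x‖ = 1) (a b c d : Fin (n + 1)) :
    |∑ i, ∑ j, ∑ k, ∑ l, Rup G i j k l x * A x a i * A x b j * A x c k * θ x l d| ≤ η := by
  have e : ∑ i, ∑ j, ∑ k, ∑ l, Rup G i j k l x * A x a i * A x b j * A x c k * θ x l d =
      ∑ i, ∑ j, ∑ k, ∑ l, Rm (cyl G) i j k l x * A x a i * A x b j * A x c k * A x d l
      - (Pf A x b c * Pf A x a d - Pf A x a c * Pf A x b d) := by
    have e1 : ∀ i j k l, Rm (cyl G) i j k l x * A x a i * A x b j * A x c k * A x d l =
        (∑ m, Rup G i j k m x * G x m l) * A x a i * A x b j * A x c k * A x d l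
        + (G x j k - x j * x k) * (G x i l - x i * x l) * A x a i * A x b j * A x c k * A x d l
        - (G x i k - x i * x k) * (G x j l - x j * x l) * A x a i * A x b j * A x c k * A x d l := by
      intro i j k l
      rw [rmc cyr h x hx]
      ring
    simp only [e1, Finset.sum_add_distrib, Finset.sum_sub_distrib]
    rw [fac3 (fun i j k m => Rup G i j k m x) (fun m l => G x m l) (fun i => A x a i)
      (fun j => A x b j) (fun k => A x c k) (fun l => A x d l) (fun m => θ x m d)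
      (fun m => GA h x m d)]
    rw [fac1 (fun j k => G x j k - x j * x k) (fun i l => G x i l - x i * x l) (fun i => A x a i)
      (fun j => A x b j) (fun k => A x c k) (fun l => A x d l)]
    rw [fac2 (fun i k => G x i k - x i * x k) (fun j l => G x j l - x j * x l) (fun i => A x a i)
      (fun j => A x b j) (fun k => A x c k) (fun l => A x d l)]
    simp only [APA h]
    ring
  rw [e]
  exact hn x hx a b c d

/-- components in the frame are bounded -/
lemma comp {G A θ : MF n} (h : Cofr G A θ) {C0 : ℝ} (hC : 0 ≤ C0) (x : EE n)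
    (hb : ∀ v : Fin (n + 1) → ℝ, ip G x v v ≤ C0 * ∑ i, v i ^ 2) (u : V (n + 1))
    (a : Fin (n + 1)) : |∑ i, θ x i a * u i| ≤ Real.sqrt C0 * ‖u‖ := by
  have e : ip G x (fun i => u i) (fun i => u i) = ∑ a, (∑ i, θ x i a * u i) ^ 2 := by
    unfold ip
    have e1 : ∀ i j, G x i j * u i * u j = ∑ a, (θ x i a * u i) * (θ x j a * u j) := by
      intro i j
      have : G x i j = ∑ a, θ x i a * θ x j a := by
        rw [h.gth x]
        simp [Matrix.mul_apply]
      rw [this, Finset.sum_mul, Finset.sum_mul]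
      refine Finset.sum_congr rfl (fun a _ => ?_)
      ring
    simp only [e1]
    have e2 : ∀ i, ∑ j, ∑ a, (θ x i a * u i) * (θ x j a * u j) =
        ∑ a, ∑ j, (θ x i a * u i) * (θ x j a * u j) := fun i => Finset.sum_comm
    simp only [e2]
    rw [Finset.sum_comm]
    refine Finset.sum_congr rfl (fun a _ => ?_)
    rw [sq, Finset.sum_mul_sum]
  have h1 : (∑ i, θ x i a * u i) ^ 2 ≤ ∑ a, (∑ i, θ x i a * u i) ^ 2 :=
    Finset.single_le_sum (f := fun a => (∑ i, θ x i a * u i) ^ 2) (fun a _ => sq_nonneg _)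
      (Finset.mem_univ a)
  have h2 := hb (fun i => u i)
  rw [e] at h2
  have h3 : ∑ i, u i ^ 2 = ‖u‖ ^ 2 := by
    rw [EuclideanSpace.norm_sq_eq]
    simp
  rw [h3] at h2
  have h4 : (∑ i, θ x i a * u i) ^ 2 ≤ (Real.sqrt C0 * ‖u‖) ^ 2 := by
    rw [mul_pow, Real.sq_sqrt hC]
    exact h1.trans h2
  exact abs_le_of_sq_le_sq h4 (by positivity)

/-- expansion of a vector in the frame -/
lemma expd {G A θ : MF n} (h : Cofr G A θ) (x : EE n) (u : V (n + 1)) (i : Fin (n + 1)) :
    u i = ∑ a, (∑ k, θ x k a * u k) * A x a i := by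
  have e : ∀ k, ∑ a, θ x k a * A x a i = if k = i then 1 else 0 := by
    intro k
    have := congrFun (congrFun (tA h x) k) i
    simpa [Matrix.mul_apply, Matrix.one_apply] using this
  have e2 : ∑ a, (∑ k, θ x k a * u k) * A x a i = ∑ k, (∑ a, θ x k a * A x a i) * u k := by
    simp only [Finset.sum_mul]
    rw [Finset.sum_comm]
    refine Finset.sum_congr rfl (fun k _ => ?_)
    refine Finset.sum_congr rfl (fun a _ => ?_)
    ring
  rw [e2]
  simp [e]

end Pool.Agent.Helper99.RFn.FCB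

namespace Pool.Agent.Helper99.RFn

open Pool.Agent.Helper47.RFn (EE MF pd Hom0 Sm IsMetric cyl Chr Rup Rm ip gvol)
open Pool.Agent.Helper64.RFn
open Pool.Agent.Helper99.RFn.FCB

/-- **FCBn** -/
theorem fcbn (cyr : CYRn) (cur : CURn) : FCBn := by
  intro n C0 η G A θ h hC hη hb hn x hx u v
  have hx0 : x ≠ 0 := by
    intro h0
    rw [h0, norm_zero] at hx
    exact zero_ne_one hx
  rw [cur n G A θ h x hx0 u v]
  have hent : ∀ d c, |((θ x).transpose *
      Matrix.of (fun l k => ∑ i, ∑ j, Rup G i j k l x * u i * v j) * (A x).transpose) d c| ≤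
      (((n + 1 : ℕ) : ℝ)) ^ 2 * ((Real.sqrt C0 * ‖u‖) * (Real.sqrt C0 * ‖v‖) * η) := by
    intro d c
    have e : ((θ x).transpose *
        Matrix.of (fun l k => ∑ i, ∑ j, Rup G i j k l x * u i * v j) * (A x).transpose) d c =
        ∑ l, ∑ k, θ x l d * (∑ i, ∑ j, Rup G i j k l x * u i * v j) * A x c k := by
      simp only [Matrix.mul_apply, Matrix.transpose_apply, Matrix.of_apply, Finset.sum_mul]
      rw [Finset.sum_comm]
    rw [e, fac4 (fun i j k l => Rup G i j k l x) (A x) (fun a => ∑ k, θ x k a * u k)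
      (fun b => ∑ k, θ x k b * v k) (fun i => u i) (fun j => v j) (fun k => A x c k)
      (fun l => θ x l d) (fun i => expd h x u i) (fun j => expd h x v j)]
    exact dbl _ _ _ _ _ _ (by positivity) (fun a => comp h hC x (hb x hx0) u a)
      (fun b => comp h hC x (hb x hx0) v b) (fun a b => nr cyr h hn x hx a b c d)
  refine (opn _ _ (by positivity) hent).trans (le_of_eq ?_)
  have hs : Real.sqrt C0 * Real.sqrt C0 = C0 := Real.mul_self_sqrt hC
  push_cast
  calc ((n : ℝ) + 1) ^ 2 * (((n : ℝ) + 1) ^ 2 *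
        (Real.sqrt C0 * ‖u‖ * (Real.sqrt C0 * ‖v‖) * η))
      = ((n : ℝ) + 1) ^ 4 * (Real.sqrt C0 * Real.sqrt C0) * η * ‖u‖ * ‖v‖ := by ring
    _ = ((n : ℝ) + 1) ^ 4 * C0 * η * ‖u‖ * ‖v‖ := by rw [hs]

end Pool.Agent.Helper99.RFn
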