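import Pool.Agent.Helper47.RFn.Alg

/-!
# Project RFn (MP_c98eff_gt, n ≥ 4), packet PU: boundary inequalities
-/

namespace Pool.Agent.Helper47.RFn

open Finset

theorem goal_PU (hWI : Goal_WI) (hWQ : Goal_WQ) (hCB : Goal_CB) (hLN : Goal_LN) (hCL : Goal_CL) :
    Goal_PU := by
  intro n hn a b p c β B S hG hS hR hl hβ hB hβc
  obtain ⟨l1, -, -, -, -, -, l7, -, -, -, -, l12, l13, l14⟩ := hLN n
  obtain ⟨-, -, -, -, -, -, c7, -, -⟩ := hCL n
  obtain ⟨-, -, hR0, hRn, -⟩ := hCB n (by omega) S hS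
  have hsym := (c7 S hS.1).1
  have hn4 : (4 : ℝ) ≤ n := by exact_mod_cast hn
  have hn0 : (n : ℝ) ≠ 0 := by linarith
  have hB1 : 1 / B ≤ 1 := by
    rw [div_le_one (by linarith)]
    exact hB
  have hcoef : 0 ≤ (2 * ((n : ℝ) - 1) - 1 / B) * β ^ 2 / (1 + 2 * ((n : ℝ) - 1) * a) := by
    have h1 : 0 ≤ 2 * ((n : ℝ) - 1) - 1 / B := by linarith
    have h2 : 0 ≤ 1 + 2 * ((n : ℝ) - 1) * a := by
      have := mul_nonneg (show (0 : ℝ) ≤ 2 * ((n : ℝ) - 1) by linarith) hG.ha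
      linarith
    exact div_nonneg (mul_nonneg h1 (sq_nonneg _)) h2
  constructor
  · intro z w hz hI
    have h1 := hG.dq S hS hR z w
    have h2 := hWI n S hS z w hz
    have h3 : qf (wdg (Ric S) 1) z w ≤ (n : ℝ) * lam S * qf (Id4 n) z w := by
      refine (hWQ n (Ric S) 0 ((n : ℝ) * lam S) hsym (fun v => ?_) hRn z w).2.2
      rw [zero_mul]
      exact hR0 v
    rw [l1]
    have h4 : 4 * β * qf (wdg (Ric S) 1) z w ≤ 4 * β * ((n : ℝ) * lam S * qf (Id4 n) z w) :=
      mul_le_mul_of_nonneg_left h3 (by linarith)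
    have h5 : 0 ≤ (2 * ((n : ℝ) - 1) - 1 / B) * β ^ 2 / (1 + 2 * ((n : ℝ) - 1) * a)
        * qf (Id4 n) z w := mul_nonneg hcoef hI.le
    have h6 : 0 < (c * lam S - 2 * n * β) * (lam S * qf (Id4 n) z w) :=
      mul_pos (by linarith) (mul_pos hl hI)
    nlinarith [h1, h2, h4, h5, h6]
  · intro v hv hvR
    have hnv : 0 < nrm v := by
      have h0 : 0 ≤ nrm v := Finset.sum_nonneg fun i _ => sq_nonneg _
      refine lt_of_le_of_ne h0 (fun h => hv ?_)
      funext i
      have := (Finset.sum_eq_zero_iff_of_nonneg (fun i _ => sq_nonneg (v i))).mp h.symm i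
        (Finset.mem_univ i)
      simpa using this
    have h1 := hG.dr S hS hR v hvR
    have htr : (Ric S).trace = (n : ℝ) * lam S := by
      rw [lam, Matrix.trace]
      field_simp
      rfl
    have hric : Ric (wdg (Ric S) 1) = (((n : ℝ) - 2) / 2) • Ric S
        + ((n : ℝ) * lam S / 2) • (1 : M2 n) := by
      rw [l7 (Ric S) hsym, htr]
    have hlam : lam (wdg (Ric S) 1) = ((n : ℝ) - 1) * lam S := by
      have h2 : (∑ i, Ric (wdg (Ric S) 1) i i) = (n : ℝ) * (((n : ℝ) - 1) * lam S) := by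
        have h3 : (∑ i, Ric (wdg (Ric S) 1) i i) = (Ric (wdg (Ric S) 1)).trace := rfl
        rw [h3, hric, Matrix.trace_add, Matrix.trace_smul, Matrix.trace_smul, htr,
          Matrix.trace_one, Fintype.card_fin, smul_eq_mul, smul_eq_mul]
        ring
      rw [lam, h2]
      field_simp
    have hval : rq (Ric (wdg (Ric S) 1)) v - p * lam (wdg (Ric S) 1) * nrm v
        = (n : ℝ) / 2 * lam S * (1 - p) * nrm v := by
      rw [hric, l12, l13, l13, l14, hvR, hlam]
      ring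
    rw [hval]
    have h5 : 0 ≤ (2 * ((n : ℝ) - 1) - 1 / B) * β ^ 2 / (1 + 2 * ((n : ℝ) - 1) * a)
        * ((n : ℝ) - 1) * (1 - p) * nrm v := by
      have hp1 := hG.hp1
      exact mul_nonneg (mul_nonneg (mul_nonneg hcoef (by linarith)) (by linarith)) hnv.le
    have hp0 := hG.hp
    have h6 : 0 < (c * lam S - 2 * n * β) * (lam S * nrm v) :=
      mul_pos (by linarith) (mul_pos hl hnv)
    have h7 : 0 ≤ (n : ℝ) * β * (lam S * nrm v) := by positivity
    have h8 : 0 ≤ p * ((n : ℝ) * β * (lam S * nrm v)) := mul_nonneg hp0 h7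
    nlinarith [h1, h5, h6, h7, h8]

end Pool.Agent.Helper47.RFn
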